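import Mathlib
import Pool.Agent.N916.ToMod2

set_option autoImplicit false

namespace Pool.Agent.Results.MP_0c59fa_nt.ParityTo

open PowerSeries
open scoped PowerSeries.WithPiTopology

/-- The series `T_o(q) = ∑_{m ≥ 0} q^{2m} (-q;q)_{2m} / (q;q^2)_{m+1}` converges in `ℤ⟦q⟧`, and its
coefficient `t_o(n)` is even whenever `8n+9` is not of the form `x^2 + 2y^2`. -/
theorem result :
    ∃ T : ℤ⟦X⟧,
      HasSum (fun m : ℕ =>
        (X : ℤ⟦X⟧) ^ (2 * m) * (∏ k ∈ Finset.range (2 * m), (1 + X ^ (k + 1))) *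
          invOfUnit (∏ k ∈ Finset.range (m + 1), (1 - X ^ (2 * k + 1))) 1) T ∧
      ∀ n : ℕ, (¬ ∃ x y : ℤ, 8 * (n : ℤ) + 9 = x ^ 2 + 2 * y ^ 2) → Even (coeff n T) := by
  refine ⟨PowerSeries.mk Pool.Agent.N916.ToSeries.tO, ?_, ?_⟩
  · rw [PowerSeries.WithPiTopology.hasSum_iff_hasSum_coeff]
    intro n
    rw [coeff_mk]
    unfold Pool.Agent.N916.ToSeries.tO Pool.Agent.N916.ToSeries.toTerm
    apply hasSum_sum_of_ne_finset_zero
    intro m hm
    rw [Finset.mem_range] at hm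
    rw [mul_assoc, coeff_X_pow_mul', if_neg (by omega)]
  · intro n hn
    rw [coeff_mk]
    exact Pool.Agent.N916.ToSeries.tO_even n hn

end Pool.Agent.Results.MP_0c59fa_nt.ParityTo
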